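import Pool.Agent.Helper38.MR.Spec

/-! # Module N : negative errors -/

namespace Pool.Agent.Helper50.MR

open Pool.Agent.Helper38.MR

theorem mpt_le_mpt_iff {m : ℕ} {α β : Type} [DecidableEq α] [DecidableEq β] (χ : Fin m → α)
    (c : Fin m → β) : mpt χ ≤ mpt c ↔ ∀ a b, c a = c b → χ a = χ b := by
  constructor
  · intro h a b hab
    by_contra hne
    rcases lt_trichotomy a b with h1 | h1 | h1
    · have h2 := h ⟨(a, b), h1⟩
      simp only [mpt] at h2
      rw [decide_eq_true hne, decide_eq_false (by simpa using hab)] at h2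
      exact Bool.false_ne_true (h2 rfl)
    · exact hne (by rw [h1])
    · have h2 := h ⟨(b, a), h1⟩
      simp only [mpt] at h2
      have hne' : χ b ≠ χ a := fun h => hne h.symm
      rw [decide_eq_true hne', decide_eq_false (by simpa using hab.symm)] at h2
      exact Bool.false_ne_true (h2 rfl)
  · intro h e
    simp only [mpt]
    by_cases h1 : c e.1.1 = c e.1.2
    · have h2 := h _ _ h1
      rw [decide_eq_false (by simpa using h2)]
      exact Bool.false_le _
    · rw [decide_eq_true h1]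
      exact Bool.le_true _

/-- merging the classes of `u` and `v` -/
def mrg {m : ℕ} (c : Fin m → Fin m) (u v : Fin m) : Fin m → Fin m :=
  fun w => if c w = c v then c u else c w

theorem image_mrg {m : ℕ} (c : Fin m → Fin m) (u v : Fin m) (h : c u ≠ c v) :
    Finset.univ.image (mrg c u v) = (Finset.univ.image c).erase (c v) := by
  ext y
  simp only [Finset.mem_image, Finset.mem_univ, true_and, Finset.mem_erase, mrg]
  constructor
  · rintro ⟨w, hw⟩
    split_ifs at hw with h1
    · subst hw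
      exact ⟨h, u, rfl⟩
    · subst hw
      exact ⟨h1, w, rfl⟩
  · rintro ⟨hy, w, rfl⟩
    exact ⟨w, by rw [if_neg hy]⟩

theorem rnk_mrg {m : ℕ} (c : Fin m → Fin m) (u v : Fin m) (h : c u ≠ c v) :
    rnk (mrg c u v) = rnk c + 1 := by
  unfold rnk
  rw [image_mrg c u v h, Finset.card_erase_of_mem (Finset.mem_image_of_mem _ (Finset.mem_univ _))]
  have h1 : 1 ≤ (Finset.univ.image c).card :=
    Finset.card_pos.2 ⟨c v, Finset.mem_image_of_mem _ (Finset.mem_univ _)⟩
  have h2 : (Finset.univ.image c).card ≤ m := by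
    refine Finset.card_image_le.trans ?_
    simp
  omega

theorem mpt_le_mrg {m l : ℕ} (χ : Fin m → Fin l) (c : Fin m → Fin m) (u v : Fin m)
    (h : mpt χ ≤ mpt c) (huv : χ u = χ v) : mpt χ ≤ mpt (mrg c u v) := by
  rw [mpt_le_mpt_iff] at h ⊢
  intro a b hab
  simp only [mrg] at hab
  split_ifs at hab with h1 h2 h2
  · exact h a b (h1.trans h2.symm)
  · have h3 := h _ _ hab
    have h4 := h _ _ h1
    rw [h4, ← huv, h3]
  · have h3 := h _ _ hab
    have h4 := h _ _ h2
    rw [h4, ← huv, h3]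
  · exact h a b hab

theorem N_step {m r s : ℕ} {F : Graph m → ℝ} (hF : Antitone F) (hD : CertD s F)
    (c : Fin m → Fin m) : ∃ A : Finset (Fin m), A.card < s ∧ clq A ≤ mpt c ∧
      ∀ (l : ℕ) (χ : Fin m → Fin l), F (mpt c) < F (mpt χ) →
        ∃ u ∈ A, ∃ v ∈ A, c u ≠ c v ∧ χ u = χ v := by
  obtain ⟨A, hA, hcl, hle⟩ := hD (mpt c)
  refine ⟨A, hA, hcl, fun l χ hlt => ?_⟩
  by_contra hno
  push Not at hno
  have h1 : clq A ≤ mpt χ := by
    intro e
    simp only [clq, mpt]
    by_cases he : e.1.1 ∈ A ∧ e.1.2 ∈ A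
    · have hc : c e.1.1 ≠ c e.1.2 := by
        have := hcl e
        simp only [clq, mpt] at this
        rw [decide_eq_true he] at this
        intro heq
        rw [decide_eq_false (by simpa using heq)] at this
        exact Bool.false_ne_true (this rfl)
      rw [decide_eq_true (hno _ he.1 _ he.2 hc)]
      exact Bool.le_true _
    · rw [decide_eq_false he]
      exact Bool.false_le _
  have h2 := hF h1
  linarith

theorem N : specN := by
  intro m r s F₁ F₂ hF₁ hF₂ hD₁ hD₂
  suffices H : ∀ j ≤ r, ∃ 𝓔 : Finset (Fin m → Fin m), 𝓔.card ≤ (2 * s ^ 2) ^ j ∧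
      (∀ c ∈ 𝓔, rnk c = j) ∧
      ∀ (l : ℕ) (χ : Fin m → Fin l),
        (∀ c : Fin m → Fin m, rnk c < r → mpt χ ≤ mpt c →
          F₁ (mpt c) < F₁ (mpt χ) ∨ F₂ (mpt c) < F₂ (mpt χ)) →
        ∃ c ∈ 𝓔, mpt χ ≤ mpt c from H r le_rfl
  intro j
  induction j with
  | zero =>
    intro _
    refine ⟨{id}, by simp, ?_, ?_⟩
    · intro c hc
      rw [Finset.mem_singleton] at hc
      subst hc
      simp [rnk]
    · intro l χ _
      refine ⟨id, Finset.mem_singleton_self _, ?_⟩
      rw [mpt_le_mpt_iff]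
      intro a b hab
      simp only [id] at hab
      rw [hab]
  | succ j ih =>
    intro hj
    obtain ⟨𝓔, hcard, hrk, hbad⟩ := ih (by omega)
    choose A₁ hA₁ hcl₁ hsp₁ using fun c => N_step (r := r) hF₁ hD₁ c
    choose A₂ hA₂ hcl₂ hsp₂ using fun c => N_step (r := r) hF₂ hD₂ c
    classical
    let ch : (Fin m → Fin m) → Finset (Fin m → Fin m) := fun c =>
      (((A₁ c ×ˢ A₁ c) ∪ (A₂ c ×ˢ A₂ c)).filter (fun p => c p.1 ≠ c p.2)).image
        (fun p => mrg c p.1 p.2)
    have hch : ∀ c, (ch c).card ≤ 2 * s ^ 2 := by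
      intro c
      refine Finset.card_image_le.trans ((Finset.card_filter_le _ _).trans
        ((Finset.card_union_le _ _).trans ?_))
      rw [Finset.card_product, Finset.card_product]
      have h1 := hA₁ c
      have h2 := hA₂ c
      have h3 : (A₁ c).card * (A₁ c).card ≤ s * s := Nat.mul_le_mul h1.le h1.le
      have h4 : (A₂ c).card * (A₂ c).card ≤ s * s := Nat.mul_le_mul h2.le h2.le
      nlinarith
    refine ⟨𝓔.biUnion ch, ?_, ?_, ?_⟩
    · refine (Finset.card_biUnion_le).trans ?_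
      refine (Finset.sum_le_sum (fun c _ => hch c)).trans ?_
      rw [Finset.sum_const, smul_eq_mul, pow_succ]
      exact Nat.mul_le_mul_right _ hcard
    · intro c' hc'
      rw [Finset.mem_biUnion] at hc'
      obtain ⟨c, hc, hc'⟩ := hc'
      simp only [ch, Finset.mem_image, Finset.mem_filter] at hc'
      obtain ⟨p, ⟨_, hp⟩, rfl⟩ := hc'
      rw [rnk_mrg c _ _ hp, hrk c hc]
    · intro l χ hχ
      obtain ⟨c, hc, hle⟩ := hbad l χ hχ
      have h1 := hχ c (by rw [hrk c hc]; omega) hle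
      rcases h1 with h1 | h1
      · obtain ⟨u, hu, v, hv, hcuv, hχuv⟩ := hsp₁ c l χ h1
        refine ⟨mrg c u v, ?_, mpt_le_mrg χ c u v hle hχuv⟩
        rw [Finset.mem_biUnion]
        refine ⟨c, hc, ?_⟩
        simp only [ch, Finset.mem_image, Finset.mem_filter, Finset.mem_union, Finset.mem_product]
        exact ⟨(u, v), ⟨Or.inl ⟨hu, hv⟩, hcuv⟩, rfl⟩
      · obtain ⟨u, hu, v, hv, hcuv, hχuv⟩ := hsp₂ c l χ h1
        refine ⟨mrg c u v, ?_, mpt_le_mrg χ c u v hle hχuv⟩
        rw [Finset.mem_biUnion]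
        refine ⟨c, hc, ?_⟩
        simp only [ch, Finset.mem_image, Finset.mem_filter, Finset.mem_union, Finset.mem_product]
        exact ⟨(u, v), ⟨Or.inr ⟨hu, hv⟩, hcuv⟩, rfl⟩

end Pool.Agent.Helper50.MR
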