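import Pool.Agent.Helper38.MR.Spec

/-! # Module Q : the clique number as the minimum of a quadratic function -/

namespace Pool.Agent.Helper50.MR

open Pool.Agent.Helper38.MR
open Finset

/-- sums over pairs `u ≠ v` -/
theorem Q_sum_edges {m : ℕ} (g : Fin m → Fin m → ℤ) (hg : ∀ u v, g u v = g v u) :
    ∑ u, ∑ v, (if u ≠ v then g u v else 0) = 2 * ∑ e : Edge m, g e.1.1 e.1.2 := by
  have h1 : ∑ e : Edge m, g e.1.1 e.1.2 = ∑ u, ∑ v, (if u < v then g u v else 0) := by
    rw [← Fintype.sum_prod_type' (f := fun u v => if u < v then g u v else 0)]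
    rw [← Finset.sum_filter (s := (univ : Finset (Fin m × Fin m))) (p := fun p => p.1 < p.2)
      (f := fun p => g p.1 p.2)]
    rw [Finset.sum_subtype (s := univ.filter (fun p : Fin m × Fin m => p.1 < p.2))
      (p := fun p : Fin m × Fin m => p.1 < p.2) (h := fun x => by simp)
      (f := fun p => g p.1 p.2)]
  have h2 : ∑ u, ∑ v, (if u < v then g u v else 0) = ∑ u, ∑ v, (if v < u then g u v else 0) := by
    rw [Finset.sum_comm]
    refine Finset.sum_congr rfl fun u _ => Finset.sum_congr rfl fun v _ => ?_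
    rw [hg v u]
  have h3 : ∀ u v : Fin m, (if u ≠ v then g u v else 0) =
      (if u < v then g u v else 0) + (if v < u then g u v else 0) := by
    intro u v
    rcases lt_trichotomy u v with h | h | h
    · rw [if_pos h.ne, if_pos h, if_neg (lt_asymm h), add_zero]
    · subst h
      simp
    · rw [if_pos h.ne', if_neg (lt_asymm h), if_pos h, zero_add]
  simp only [h3, Finset.sum_add_distrib]
  rw [← h2, ← h1]
  ring

theorem Q_card (m : ℕ) : Fintype.card (Edge m) = m * (m - 1) / 2 := by
  have h := Q_sum_edges (m := m) (fun _ _ => 1) (fun _ _ => rfl)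
  have h1 : ∑ u : Fin m, ∑ v : Fin m, (if u ≠ v then (1 : ℤ) else 0) = m * (m - 1) := by
    have : ∀ u : Fin m, ∑ v : Fin m, (if u ≠ v then (1 : ℤ) else 0) = (m : ℤ) - 1 := by
      intro u
      have h2 : ∀ v : Fin m, (if u ≠ v then (1 : ℤ) else 0) = 1 - (if u = v then 1 else 0) := by
        intro v
        by_cases h : u = v <;> simp [h]
      simp only [h2, Finset.sum_sub_distrib]
      simp
    simp only [this, Finset.sum_const, Finset.card_univ, Fintype.card_fin, nsmul_eq_mul]
  rw [h1] at h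
  simp only [Finset.sum_const, Finset.card_univ, nsmul_eq_mul, mul_one] at h
  have h2 : m * (m - 1) = 2 * Fintype.card (Edge m) := by
    rcases Nat.eq_zero_or_pos m with hm | hm
    · subst hm
      have : IsEmpty (Edge 0) := ⟨fun e => e.1.1.elim0⟩
      simp
    · zify [hm]
      exact h
  rw [h2]
  simp

/-- number of bits -/
theorem Q_card2 (m : ℕ) : Fintype.card (Fin m ⊕ Edge m) = nb m := by
  rw [Fintype.card_sum, Q_card, Fintype.card_fin, nb]

/-- linear coefficients -/
def qlin (m : ℕ) : Fin m ⊕ Edge m → ℤ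
  | Sum.inl _ => m
  | Sum.inr _ => 1

/-- quadratic coefficients -/
def qquad (m : ℕ) : Fin m ⊕ Edge m → Fin m ⊕ Edge m → ℤ
  | Sum.inl u, Sum.inl v => if u ≠ v then 1 else 0
  | Sum.inl u, Sum.inr e => -(2 * ((if u = e.1.1 then 1 else 0) + (if u = e.1.2 then 1 else 0)))
  | Sum.inr e, Sum.inl u => -(2 * ((if u = e.1.1 then 1 else 0) + (if u = e.1.2 then 1 else 0)))
  | Sum.inr _, Sum.inr _ => 0

theorem qquad_symm (m : ℕ) (a b : Fin m ⊕ Edge m) : qquad m a b = qquad m b a := by
  rcases a with u | e <;> rcases b with v | f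
  · simp only [qquad]
    by_cases h : u = v
    · rw [h]
    · rw [if_pos h, if_pos (fun h' => h h'.symm)]
  · rfl
  · rfl
  · rfl

theorem qquad_diag (m : ℕ) (a : Fin m ⊕ Edge m) : qquad m a a = 0 := by
  rcases a with u | e
  · simp [qquad]
  · rfl

/-- the contribution of an edge -/
def br {m : ℕ} (S : Fin m ⊕ Edge m → ℤ) (x : Graph m) (e : Edge m) : ℤ :=
  S (Sum.inl e.1.1) * S (Sum.inl e.1.2)
    - 2 * S (Sum.inr e) * (S (Sum.inl e.1.1) + S (Sum.inl e.1.2)) + 3 * S (Sum.inr e)
    + S (Sum.inr e) * (if x e = true then 0 else 1)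

theorem Q_double {n : ℕ} (b : Fin n → ℤ) (q : Fin n → Fin n → ℤ) (hs : ∀ k l, q k l = q l k)
    (hd : ∀ k, q k k = 0) :
    2 * ∑ k, ∑ l, (if k < l then b k * b l * q k l else 0) = ∑ k, ∑ l, b k * b l * q k l := by
  have h2 : ∑ k, ∑ l, (if k < l then b k * b l * q k l else 0) =
      ∑ k, ∑ l, (if l < k then b k * b l * q k l else 0) := by
    rw [Finset.sum_comm]
    refine Finset.sum_congr rfl fun k _ => Finset.sum_congr rfl fun l _ => ?_
    rw [hs l k, mul_comm (b l) (b k)]
  have h3 : ∀ k l : Fin n, b k * b l * q k l =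
      (if k < l then b k * b l * q k l else 0) + (if l < k then b k * b l * q k l else 0) := by
    intro k l
    rcases lt_trichotomy k l with h | h | h
    · rw [if_pos h, if_neg (lt_asymm h), add_zero]
    · subst h
      simp [hd]
    · rw [if_neg (lt_asymm h), if_pos h, zero_add]
  have h4 : ∑ k, ∑ l, b k * b l * q k l =
      ∑ k, ∑ l, (if k < l then b k * b l * q k l else 0) +
      ∑ k, ∑ l, (if l < k then b k * b l * q k l else 0) := by
    rw [← Finset.sum_add_distrib]
    refine Finset.sum_congr rfl fun k _ => ?_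
    rw [← Finset.sum_add_distrib]
    exact Finset.sum_congr rfl fun l _ => h3 k l
  rw [h4, ← h2]
  ring

theorem Q_value {m : ℕ} (ε : Fin m ⊕ Edge m ≃ Fin (nb m)) (x : Graph m) (β : Fin (nb m) → Bool)
    (S : Fin m ⊕ Edge m → ℤ) (hS : ∀ a, S a = if β (ε a) = true then 0 else 1) :
    value (fun k => qlin m (ε.symm k)) (fun k l => qquad m (ε.symm k) (ε.symm l)) (topOf ε x) β =
      m - ∑ v, S (Sum.inl v) + ∑ e : Edge m, br S x e := by
  have hb : ∀ k, (if β k = true then (1 : ℤ) else 0) = 1 - S (ε.symm k) := by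
    intro k
    rw [hS, ε.apply_symm_apply]
    by_cases h : β k = true <;> simp [h]
  unfold value
  -- the quadratic part
  have hq : ∀ k l : Fin (nb m), (if k < l ∧ β k = true ∧ β l = true then
      qquad m (ε.symm k) (ε.symm l) else 0) = if k < l then
        (1 - S (ε.symm k)) * (1 - S (ε.symm l)) * qquad m (ε.symm k) (ε.symm l) else 0 := by
    intro k l
    rw [← hb k, ← hb l]
    by_cases h1 : k < l <;> by_cases h2 : β k = true <;> by_cases h3 : β l = true <;>
      simp [h1, h2, h3]
  have hlin : ∀ k : Fin (nb m), (if β k = true then qlin m (ε.symm k) else 0) =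
      (1 - S (ε.symm k)) * qlin m (ε.symm k) := by
    intro k
    rw [← hb k]
    by_cases h : β k = true <;> simp [h]
  have htop : ∀ k : Fin (nb m), (if β k = false then topOf ε x k else 0) =
      S (ε.symm k) * topOf ε x k := by
    intro k
    have : S (ε.symm k) = 1 - (1 - S (ε.symm k)) := by ring
    rw [this, ← hb k]
    by_cases h : β k = true <;> simp [h]
  simp only [hq, hlin, htop]
  have hdouble := Q_double (fun k => 1 - S (ε.symm k)) (fun k l => qquad m (ε.symm k) (ε.symm l))
    (fun k l => qquad_symm m _ _) (fun k => qquad_diag m _)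
  -- reindexing
  have r1 : ∑ k : Fin (nb m), (1 - S (ε.symm k)) * qlin m (ε.symm k) =
      ∑ v, (1 - S (Sum.inl v)) * m + ∑ e : Edge m, (1 - S (Sum.inr e)) := by
    rw [← Equiv.sum_comp ε]
    simp only [Equiv.symm_apply_apply]
    rw [Fintype.sum_sum_type]
    simp [qlin]
  have r3 : ∑ k : Fin (nb m), S (ε.symm k) * topOf ε x k =
      ∑ e : Edge m, S (Sum.inr e) * (if x e = true then 0 else 1) := by
    rw [← Equiv.sum_comp ε]
    simp only [Equiv.symm_apply_apply, topOf]
    rw [Fintype.sum_sum_type]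
    simp
  have r2 : ∑ k : Fin (nb m), ∑ l : Fin (nb m),
      (1 - S (ε.symm k)) * (1 - S (ε.symm l)) * qquad m (ε.symm k) (ε.symm l) =
      ∑ a, ∑ b, (1 - S a) * (1 - S b) * qquad m a b := by
    rw [← Equiv.sum_comp ε]
    refine Finset.sum_congr rfl fun a _ => ?_
    rw [← Equiv.sum_comp ε]
    simp only [Equiv.symm_apply_apply]
  have r4 : ∑ a, ∑ b, (1 - S a) * (1 - S b) * qquad m a b =
      2 * ∑ e : Edge m, (1 - S (Sum.inl e.1.1)) * (1 - S (Sum.inl e.1.2)) -
      4 * ∑ e : Edge m, (1 - S (Sum.inr e)) *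
        ((1 - S (Sum.inl e.1.1)) + (1 - S (Sum.inl e.1.2))) := by
    rw [Fintype.sum_sum_type]
    simp only [Fintype.sum_sum_type, Finset.sum_add_distrib]
    have e1 : ∑ u : Fin m, ∑ v : Fin m, (1 - S (Sum.inl u)) * (1 - S (Sum.inl v)) *
        qquad m (Sum.inl u) (Sum.inl v) =
        2 * ∑ e : Edge m, (1 - S (Sum.inl e.1.1)) * (1 - S (Sum.inl e.1.2)) := by
      rw [← Q_sum_edges (fun u v => (1 - S (Sum.inl u)) * (1 - S (Sum.inl v)))
        (fun u v => mul_comm _ _)]
      refine Finset.sum_congr rfl fun u _ => Finset.sum_congr rfl fun v _ => ?_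
      by_cases h : u = v <;> simp [qquad, h]
    have e4 : ∑ e : Edge m, ∑ f : Edge m, (1 - S (Sum.inr e)) * (1 - S (Sum.inr f)) *
        qquad m (Sum.inr e) (Sum.inr f) = 0 := by
      simp [qquad]
    have e2' : ∀ e : Edge m, ∑ u : Fin m, (1 - S (Sum.inl u)) * (1 - S (Sum.inr e)) *
        qquad m (Sum.inl u) (Sum.inr e) = -(2 * ((1 - S (Sum.inr e)) *
        ((1 - S (Sum.inl e.1.1)) + (1 - S (Sum.inl e.1.2))))) := by
      intro e
      have h1 : ∀ u : Fin m, (1 - S (Sum.inl u)) * (1 - S (Sum.inr e)) *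
          qquad m (Sum.inl u) (Sum.inr e) =
          (if u = e.1.1 then -(2 * ((1 - S (Sum.inr e)) * (1 - S (Sum.inl u)))) else 0) +
          (if u = e.1.2 then -(2 * ((1 - S (Sum.inr e)) * (1 - S (Sum.inl u)))) else 0) := by
        intro u
        simp only [qquad]
        by_cases h : u = e.1.1
        · by_cases h' : u = e.1.2
          · simp only [if_pos h, if_pos h']
            ring
          · simp only [if_pos h, if_neg h']
            ring
        · by_cases h' : u = e.1.2
          · simp only [if_neg h, if_pos h']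
            ring
          · simp only [if_neg h, if_neg h']
            ring
      simp only [h1, Finset.sum_add_distrib, Finset.sum_ite_eq', Finset.mem_univ, if_true]
      ring
    have e3' : ∀ e : Edge m, ∑ u : Fin m, (1 - S (Sum.inr e)) * (1 - S (Sum.inl u)) *
        qquad m (Sum.inr e) (Sum.inl u) = -(2 * ((1 - S (Sum.inr e)) *
        ((1 - S (Sum.inl e.1.1)) + (1 - S (Sum.inl e.1.2))))) := by
      intro e
      rw [← e2' e]
      refine Finset.sum_congr rfl fun u _ => ?_
      rw [qquad_symm m (Sum.inr e) (Sum.inl u)]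
      ring
    have e2 : ∑ u : Fin m, ∑ e : Edge m, (1 - S (Sum.inl u)) * (1 - S (Sum.inr e)) *
        qquad m (Sum.inl u) (Sum.inr e) = ∑ e : Edge m, -(2 * ((1 - S (Sum.inr e)) *
        ((1 - S (Sum.inl e.1.1)) + (1 - S (Sum.inl e.1.2))))) := by
      rw [Finset.sum_comm]
      exact Finset.sum_congr rfl fun e _ => e2' e
    have e3 : ∑ e : Edge m, ∑ u : Fin m, (1 - S (Sum.inr e)) * (1 - S (Sum.inl u)) *
        qquad m (Sum.inr e) (Sum.inl u) = ∑ e : Edge m, -(2 * ((1 - S (Sum.inr e)) *
        ((1 - S (Sum.inl e.1.1)) + (1 - S (Sum.inl e.1.2))))) :=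
      Finset.sum_congr rfl fun e _ => e3' e
    rw [e1, e2, e3, e4, Finset.sum_neg_distrib, ← Finset.mul_sum]
    ring
  -- degrees
  have r5 : ∑ e : Edge m, (S (Sum.inl e.1.1) + S (Sum.inl e.1.2)) =
      ((m : ℤ) - 1) * ∑ v, S (Sum.inl v) := by
    have h := Q_sum_edges (fun u v : Fin m => S (Sum.inl u) + S (Sum.inl v))
      (fun u v => add_comm _ _)
    have h1 : ∑ u : Fin m, ∑ v : Fin m, (if u ≠ v then S (Sum.inl u) + S (Sum.inl v) else 0) =
        2 * (((m : ℤ) - 1) * ∑ v, S (Sum.inl v)) := by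
      have h2 : ∀ u v : Fin m, (if u ≠ v then S (Sum.inl u) + S (Sum.inl v) else 0) =
          S (Sum.inl u) + S (Sum.inl v) - (if u = v then S (Sum.inl u) + S (Sum.inl v) else 0) := by
        intro u v
        by_cases h : u = v <;> simp [h]
      simp only [h2, Finset.sum_sub_distrib, Finset.sum_add_distrib, Finset.sum_ite_eq,
        Finset.mem_univ, if_true, Finset.sum_const, Finset.card_univ, Fintype.card_fin,
        nsmul_eq_mul, ← Finset.mul_sum]
      ring
    rw [h1] at h
    linarith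
  have hm1 : ∑ v : Fin m, (1 - S (Sum.inl v)) * (m : ℤ) =
      m * m - m * ∑ v, S (Sum.inl v) := by
    rw [← Finset.sum_mul, Finset.sum_sub_distrib]
    simp
    ring
  have hE : (2 : ℤ) * ∑ _e : Edge m, (1 : ℤ) = m * (m - 1) := by
    have h := Q_sum_edges (m := m) (fun _ _ => 1) (fun _ _ => rfl)
    rw [← h]
    have h2 : ∀ u v : Fin m, (if u ≠ v then (1 : ℤ) else 0) = 1 - (if u = v then 1 else 0) := by
      intro u v
      by_cases h : u = v <;> simp [h]
    simp only [h2, Finset.sum_sub_distrib]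
    simp
    ring
  rw [r2, r4] at hdouble
  rw [r1, r3, hm1]
  -- expand everything in terms of basic sums
  have x1 : ∑ e : Edge m, (1 - S (Sum.inl e.1.1)) * (1 - S (Sum.inl e.1.2)) =
      ∑ _e : Edge m, (1 : ℤ) - ∑ e : Edge m, (S (Sum.inl e.1.1) + S (Sum.inl e.1.2)) +
        ∑ e : Edge m, S (Sum.inl e.1.1) * S (Sum.inl e.1.2) := by
    rw [← Finset.sum_sub_distrib, ← Finset.sum_add_distrib]
    refine Finset.sum_congr rfl fun e _ => ?_
    ring
  have x2 : ∑ e : Edge m, (1 - S (Sum.inr e)) *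
        ((1 - S (Sum.inl e.1.1)) + (1 - S (Sum.inl e.1.2))) =
      2 * ∑ _e : Edge m, (1 : ℤ) - ∑ e : Edge m, (S (Sum.inl e.1.1) + S (Sum.inl e.1.2)) -
        2 * ∑ e : Edge m, S (Sum.inr e) +
        ∑ e : Edge m, S (Sum.inr e) * (S (Sum.inl e.1.1) + S (Sum.inl e.1.2)) := by
    rw [Finset.mul_sum, Finset.mul_sum, ← Finset.sum_sub_distrib, ← Finset.sum_sub_distrib,
      ← Finset.sum_add_distrib]
    refine Finset.sum_congr rfl fun e _ => ?_
    ring
  have x3 : ∑ e : Edge m, br S x e =
      ∑ e : Edge m, S (Sum.inl e.1.1) * S (Sum.inl e.1.2) -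
      2 * ∑ e : Edge m, S (Sum.inr e) * (S (Sum.inl e.1.1) + S (Sum.inl e.1.2)) +
      3 * ∑ e : Edge m, S (Sum.inr e) +
      ∑ e : Edge m, S (Sum.inr e) * (if x e = true then 0 else 1) := by
    rw [Finset.mul_sum, Finset.mul_sum, ← Finset.sum_sub_distrib, ← Finset.sum_add_distrib,
      ← Finset.sum_add_distrib]
    refine Finset.sum_congr rfl fun e _ => ?_
    unfold br
    ring
  have x4 : ∑ e : Edge m, (1 - S (Sum.inr e)) =
      ∑ _e : Edge m, (1 : ℤ) - ∑ e : Edge m, S (Sum.inr e) := by
    rw [← Finset.sum_sub_distrib]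
  rw [x1, x2, r5] at hdouble
  rw [x3, x4]
  nlinarith [hdouble, hE]

/-- number of elements minus number of monochromatic pairs -/
theorem Q_mono {m l : ℕ} (χ : Fin m → Fin l) (T : Finset (Fin m)) :
    (T.card : ℤ) - ((univ.filter (fun e : Edge m => e.1.1 ∈ T ∧ e.1.2 ∈ T ∧ χ e.1.1 = χ e.1.2)).card
      : ℤ) ≤ l := by
  classical
  let T' := T.filter (fun v => ∃ u ∈ T, u < v ∧ χ u = χ v)
  have h1 : (T \ T').card ≤ l := by
    have : (T \ T').card ≤ (univ : Finset (Fin l)).card := by
      refine Finset.card_le_card_of_injOn χ (fun _ _ => Finset.mem_coe.2 (Finset.mem_univ _)) ?_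
      intro a ha b hb hab
      rw [Finset.mem_coe, Finset.mem_sdiff] at ha hb
      rcases lt_trichotomy a b with h | h | h
      · exact absurd (Finset.mem_filter.2 ⟨hb.1, a, ha.1, h, hab⟩) hb.2
      · exact h
      · exact absurd (Finset.mem_filter.2 ⟨ha.1, b, hb.1, h, hab.symm⟩) ha.2
    simpa using this
  have h2 : T'.card ≤
      (univ.filter (fun e : Edge m => e.1.1 ∈ T ∧ e.1.2 ∈ T ∧ χ e.1.1 = χ e.1.2)).card := by
    have hsub : T' ⊆ (univ.filter (fun e : Edge m => e.1.1 ∈ T ∧ e.1.2 ∈ T ∧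
        χ e.1.1 = χ e.1.2)).image (fun e => e.1.2) := by
      intro v hv
      obtain ⟨hvT, u, hu, huv, hχ⟩ := Finset.mem_filter.1 hv
      rw [Finset.mem_image]
      exact ⟨⟨(u, v), huv⟩, Finset.mem_filter.2 ⟨Finset.mem_univ _, hu, hvT, hχ⟩, rfl⟩
    exact (Finset.card_le_card hsub).trans Finset.card_image_le
  have h3 : (T \ T').card + T'.card = T.card :=
    Finset.card_sdiff_add_card_eq_card (Finset.filter_subset _ _)
  have : T.card ≤ l + (univ.filter (fun e : Edge m => e.1.1 ∈ T ∧ e.1.2 ∈ T ∧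
      χ e.1.1 = χ e.1.2)).card := by omega
  have h4 : (T.card : ℤ) ≤ (l : ℤ) + ((univ.filter (fun e : Edge m => e.1.1 ∈ T ∧ e.1.2 ∈ T ∧
      χ e.1.1 = χ e.1.2)).card : ℤ) := by exact_mod_cast this
  linarith

theorem Q : specQ := by
  intro m hm
  have hcard := Q_card2 m
  let ε : Fin m ⊕ Edge m ≃ Fin (nb m) := Fintype.equivFinOfCardEq hcard
  refine ⟨ε, fun k => qlin m (ε.symm k), fun k l => qquad m (ε.symm k) (ε.symm l), m, ?_, ?_, ?_, ?_⟩
  · intro k
    have : ∀ a, |qlin m a| ≤ 4 * m := by
      rintro (u | e)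
      · simp only [qlin]
        rw [abs_of_nonneg (by positivity)]
        linarith [(Nat.cast_nonneg m : (0 : ℤ) ≤ m)]
      · simp only [qlin, abs_one]
        have : (2 : ℤ) ≤ m := by exact_mod_cast hm
        linarith
    exact this _
  · intro k l
    have : ∀ a b, |qquad m a b| ≤ 4 * m := by
      have h2 : (2 : ℤ) ≤ m := by exact_mod_cast hm
      have h5 : ∀ (u : Fin m) (e : Edge m), |-(2 * ((if u = e.1.1 then (1 : ℤ) else 0) +
          (if u = e.1.2 then 1 else 0)))| ≤ 4 * m := by
        intro u e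
        rw [abs_le]
        constructor <;> split_ifs <;> linarith
      rintro (u | e) (v | f)
      · simp only [qquad]
        split_ifs
        · rw [abs_one]; linarith
        · rw [abs_zero]; linarith
      · exact h5 u f
      · exact h5 v e
      · simp only [qquad, abs_zero]; linarith
    exact this _ _
  · intro x K hK
    let sel : Fin m ⊕ Edge m → Bool := fun a => match a with
      | Sum.inl v => decide (v ∉ K)
      | Sum.inr e => decide (¬ (e.1.1 ∈ K ∧ e.1.2 ∈ K))
    refine ⟨fun k => sel (ε.symm k), ?_⟩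
    let S : Fin m ⊕ Edge m → ℤ := fun a => if sel a = true then 0 else 1
    rw [Q_value ε x _ S (fun a => by simp only [S, Equiv.symm_apply_apply])]
    have hv : ∀ v, S (Sum.inl v) = if v ∈ K then 1 else 0 := by
      intro v
      simp only [S, sel]
      by_cases h : v ∈ K <;> simp [h]
    have he : ∀ e, S (Sum.inr e) = if e.1.1 ∈ K ∧ e.1.2 ∈ K then 1 else 0 := by
      intro e
      simp only [S, sel]
      by_cases h : e.1.1 ∈ K ∧ e.1.2 ∈ K <;> simp [h]
    have hbr : ∀ e : Edge m, br S x e = 0 := by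
      intro e
      unfold br
      rw [hv, hv, he]
      by_cases h1 : e.1.1 ∈ K
      · by_cases h2 : e.1.2 ∈ K
        · have hx : x e = true := by
            have := hK e
            simp only [clq] at this
            rw [decide_eq_true ⟨h1, h2⟩] at this
            exact this rfl
          simp [h1, h2, hx]
        · simp [h1, h2]
      · simp [h1]
    simp only [hbr, hv, Finset.sum_const_zero, add_zero]
    rw [Finset.sum_ite_mem]
    simp
  · intro x l χ hχ β
    let S : Fin m ⊕ Edge m → ℤ := fun a => if β (ε a) = true then 0 else 1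
    rw [Q_value ε x β S (fun a => rfl)]
    have h01 : ∀ a, S a = 0 ∨ S a = 1 := by
      intro a
      simp only [S]
      by_cases h : β (ε a) = true <;> simp [h]
    let T : Finset (Fin m) := univ.filter (fun v => S (Sum.inl v) = 1)
    have hT : ∑ v, S (Sum.inl v) = T.card := by
      have : ∀ v, S (Sum.inl v) = if S (Sum.inl v) = 1 then 1 else 0 := by
        intro v
        rcases h01 (Sum.inl v) with h | h <;> rw [h] <;> simp
      rw [Finset.sum_congr rfl (fun v _ => this v), Finset.sum_boole]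
    have hbr : ∀ e : Edge m, (if e.1.1 ∈ T ∧ e.1.2 ∈ T ∧ χ e.1.1 = χ e.1.2 then (1 : ℤ) else 0) ≤
        br S x e := by
      intro e
      have hx : χ e.1.1 = χ e.1.2 → x e = false := by
        intro h
        by_contra hne
        have h1 : x e = true := by simpa using hne
        have h2 := hχ e
        simp only [mpt] at h2
        rw [h1, decide_eq_false (by simpa using h)] at h2
        exact Bool.false_ne_true (h2 rfl)
      have hu : e.1.1 ∈ T ↔ S (Sum.inl e.1.1) = 1 := by simp [T]
      have hw : e.1.2 ∈ T ↔ S (Sum.inl e.1.2) = 1 := by simp [T]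
      simp only [hu, hw]
      unfold br
      rcases h01 (Sum.inl e.1.1) with h1 | h1 <;> rcases h01 (Sum.inl e.1.2) with h2 | h2 <;>
        rcases h01 (Sum.inr e) with h3 | h3 <;> rw [h1, h2, h3]
      · simp
      · by_cases hxe : x e = true <;> simp [hxe]
      · simp
      · by_cases hxe : x e = true <;> simp [hxe]
      · simp
      · by_cases hxe : x e = true <;> simp [hxe]
      · by_cases hc : χ e.1.1 = χ e.1.2 <;> simp [hc]
      · by_cases hc : χ e.1.1 = χ e.1.2
        · simp [hc, hx hc]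
        · by_cases hxe : x e = true <;> simp [hc, hxe]
    have hsum : ((univ.filter (fun e : Edge m => e.1.1 ∈ T ∧ e.1.2 ∈ T ∧
        χ e.1.1 = χ e.1.2)).card : ℤ) ≤ ∑ e : Edge m, br S x e := by
      rw [← Finset.sum_boole]
      exact Finset.sum_le_sum fun e _ => hbr e
    have hmono := Q_mono χ T
    rw [hT]
    linarith

end Pool.Agent.Helper50.MR
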